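import Pool.Agent.P.MP_c49aeb_co.EssMain

namespace Pool.Agent.Results.MP_c49aeb_co.EssentiallyFive

open Pool.Agent.P.MP_c49aeb_co.Ess

theorem result :
    ∃ (n : ℕ) (G : SimpleGraph (Fin n)),
      (∃ (f : Fin n → ℂ) (γ : Fin n → Fin n → unitInterval → ℂ),
        Function.Injective f ∧
        (∀ u v, G.Adj u v →
          Continuous (γ u v) ∧ Function.Injective (γ u v) ∧
          γ u v 0 = f u ∧ γ u v 1 = f v ∧
          ∀ (w : Fin n) (t : unitInterval), γ u v t = f w → (w = u ∨ w = v)) ∧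
        (∀ u v u' v', G.Adj u v → G.Adj u' v' →
          ¬ ((u = u' ∧ v = v') ∨ (u = v' ∧ v = u')) →
          ∀ s t : unitInterval, γ u v s = γ u' v' t → ∃ w : Fin n, γ u v s = f w)) ∧
      5 < n ∧
      (∀ S : Finset (Fin n), S.card ≤ 4 →
        (G.induce {v : Fin n | v ∉ S}).Connected ∨
        (S.card = 4 ∧ ∃ w : Fin n, G.neighborSet w = ↑S ∧
          (G.induce {v : Fin n | v ∉ S ∧ v ≠ w}).Connected)) ∧
      G.Colorable 3 ∧
      ∃ L : Fin n → Finset ℕ, (∀ v, (L v).card = 4) ∧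
        ¬ ∃ c : Fin n → ℕ, (∀ v, c v ∈ L v) ∧ ∀ u v, G.Adj u v → c u ≠ c v :=
  ⟨1138, GG, GG_planar, by norm_num, GG_conn, GG_col, fun v => (LL v.val).toFinset, LL_card, GG_not⟩

end Pool.Agent.Results.MP_c49aeb_co.EssentiallyFive
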