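import Pool.Agent.P.MP_c49aeb_co.PaintMain

namespace Pool.Agent.Results.MP_c49aeb_co.NotPaintable

open Pool.Agent.P.MP_c49aeb_co.Paint

theorem result :
    ∃ (n : ℕ) (G : SimpleGraph (Fin n)),
      (∃ (f : Fin n → ℂ) (γ : Fin n → Fin n → unitInterval → ℂ),
        Function.Injective f ∧
        (∀ u v, G.Adj u v →
          Continuous (γ u v) ∧ Function.Injective (γ u v) ∧
          γ u v 0 = f u ∧ γ u v 1 = f v ∧
          ∀ (w : Fin n) (t : unitInterval), γ u v t = f w → (w = u ∨ w = v)) ∧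
        (∀ u v u' v', G.Adj u v → G.Adj u' v' →
          ¬ ((u = u' ∧ v = v') ∨ (u = v' ∧ v = u')) →
          ∀ s t : unitInterval, γ u v s = γ u' v' t → ∃ w : Fin n, γ u v s = f w)) ∧
      5 < n ∧
      (∀ S : Finset (Fin n), S.card ≤ 4 → (G.induce {v : Fin n | v ∉ S}).Connected) ∧
      ¬ Paintable G Finset.univ (fun _ => 4) :=
  ⟨578, GG, GG_planar, by norm_num, GG_conn, GG_not_paintable⟩

end Pool.Agent.Results.MP_c49aeb_co.NotPaintable
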