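import Pool.Agent.K.MP_c49aeb_co.C0

namespace Pool.Agent.Results.MP_c49aeb_co.Parity

theorem result :
    ∀ (V : Type) [Fintype V] (G : SimpleGraph V),
      (∃ (f : V → ℂ) (γ : V → V → unitInterval → ℂ),
        Function.Injective f ∧
        (∀ u v, G.Adj u v →
          Continuous (γ u v) ∧ Function.Injective (γ u v) ∧
          γ u v 0 = f u ∧ γ u v 1 = f v ∧
          ∀ (w : V) (t : unitInterval), γ u v t = f w → (w = u ∨ w = v)) ∧
        (∀ u v u' v', G.Adj u v → G.Adj u' v' →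
          ¬ ((u = u' ∧ v = v') ∨ (u = v' ∧ v = u')) →
          ∀ s t : unitInterval, γ u v s = γ u' v' t → ∃ w : V, γ u v s = f w)) →
      G.edgeSet.ncard + 6 = 3 * Fintype.card V →
      ∀ x : Fin 6 → V,
        Odd {c : V → Fin 4 | (∀ u v, G.Adj u v → c u ≠ c v) ∧
          ∀ j : Fin 4, {i | c (x i) = j}.ncard = j}.ncard →
        ∀ L : V → Finset ℕ, (∀ v, 4 ≤ (L v).card + {i | x i = v}.ncard) →
          ∃ c : V → ℕ, (∀ v, c v ∈ L v) ∧ ∀ u v, G.Adj u v → c u ≠ c v :=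
  fun V _ G hpl hm x hodd L hL => Pool.Agent.P.MP_c49aeb_co.main V G hpl hm x hodd L hL

end Pool.Agent.Results.MP_c49aeb_co.Parity
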